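import Pool.Agent.Helper21.HY.Bin
import Pool.Agent.Helper55.NI.Pal
import Pool.Agent.Helper2.HY.DefN
import Pool.Agent.Helper14.HY.Gcd

/-!
Project HY (MP_b8862a_ag), block 5: the primitive Hodge numbers of a hypersurface of degree `d` are indecomposable if a prime number
divides `d - 2` exactly once (modulo that prime number they are the Hodge numbers of a quadric).
-/

open Finset

namespace MH.HY

/-- a criterion in the manner of Eisenstein -/
theorem indec_of_prime {w c l : ℤ} {r : ℤ → ℕ} {p : ℕ} (hp : p.Prime) (hw : w = 2 * c) (h1 : ∀ j, j ≠ c → p ∣ r j)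
    (h2 : ¬ p ∣ r c) (hl : r l ≠ 0) (hlow : ∀ j, j < l → r j = 0) (h3 : ¬ p ^ 2 ∣ r l) : NI.Indec w r := by
  intro a f g hf hg hr
  by_contra hcon
  rw [not_or, not_le, not_le] at hcon
  obtain ⟨hcf, hcg⟩ := hcon
  -- the lowest exponents with a coefficient prime to `p`
  have hex : ∃ i ∈ f.support, ¬ p ∣ f i * g (c - i) := by
    by_contra hno
    push Not at hno
    exact h2 (by rw [hr, Finsupp.sum]; exact Finset.dvd_sum hno)
  obtain ⟨i3, hi3, hi3'⟩ := hex
  have hi3f : ¬ p ∣ f i3 := fun h => hi3' (Dvd.dvd.mul_right h _)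
  have hi3g : ¬ p ∣ g (c - i3) := fun h => hi3' (Dvd.dvd.mul_left h _)
  have hne : ∀ {h : ℤ →₀ ℕ} {i : ℤ}, ¬ p ∣ h i → i ∈ h.support := by
    intro h i hi
    rw [Finsupp.mem_support_iff]
    intro h0
    exact hi (by rw [h0]; exact dvd_zero _)
  have minEx : ∀ (h : ℤ →₀ ℕ), (∃ i, ¬ p ∣ h i) → ∃ i, ¬ p ∣ h i ∧ ∀ j, j < i → p ∣ h j := by
    intro h hh
    obtain ⟨i, hi⟩ := hh
    have hF : (h.support.filter fun i => ¬ p ∣ h i).Nonempty := ⟨i, Finset.mem_filter.2 ⟨hne hi, hi⟩⟩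
    refine ⟨_, (Finset.mem_filter.1 (Finset.min'_mem _ hF)).2, fun j hj => ?_⟩
    by_contra hj'
    exact absurd (Finset.min'_le _ j (Finset.mem_filter.2 ⟨hne hj', hj'⟩)) (not_le.2 hj)
  obtain ⟨i1, hi1, hi1'⟩ := minEx f ⟨i3, hi3f⟩
  obtain ⟨j1, hj1, hj1'⟩ := minEx g ⟨_, hi3g⟩
  have hA : ¬ p ∣ r (i1 + j1) := by
    intro h
    rw [hr, Finsupp.sum, ← Finset.add_sum_erase _ _ (hne hi1)] at h
    have h4 : p ∣ ∑ x ∈ f.support.erase i1, f x * g (i1 + j1 - x) := by
      refine Finset.dvd_sum fun i hi => ?_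
      rw [Finset.mem_erase] at hi
      rcases lt_or_gt_of_ne hi.1 with h5 | h5
      · exact Dvd.dvd.mul_right (hi1' i h5) _
      · exact Dvd.dvd.mul_left (hj1' _ (by omega)) _
    have h6 := (Nat.dvd_add_left h4).1 h
    rw [add_sub_cancel_left] at h6
    rcases (Nat.Prime.dvd_mul hp).1 h6 with h7 | h7
    · exact hi1 h7
    · exact hj1 h7
  have hc : i1 + j1 = c := by
    by_contra hne'
    exact hA (h1 _ hne')
  have hB : i1 ≤ a - i1 := by
    by_contra hlt
    rw [not_le] at hlt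
    exact hi1 (by rw [← hf]; exact hi1' _ hlt)
  have hC : j1 ≤ w - a - j1 := by
    by_contra hlt
    rw [not_le] at hlt
    exact hj1 (by rw [← hg]; exact hj1' _ hlt)
  -- the lowest exponents
  have minS : ∀ (h : ℤ →₀ ℕ) (b i : ℤ), (∀ j, h (b - j) = h j) → 1 < h.support.card → i = b - i → (∀ j, j < i → p ∣ h j) →
      ∃ k, k ∈ h.support ∧ (∀ j ∈ h.support, k ≤ j) ∧ p ∣ h k := by
    intro h b i hsym hcard hib hlt
    have hN : h.support.Nonempty := Finset.card_pos.1 (by omega)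
    refine ⟨h.support.min' hN, Finset.min'_mem _ _, fun j hj => Finset.min'_le _ j hj, ?_⟩
    apply hlt
    by_contra hge
    rw [not_lt] at hge
    have hall : ∀ j ∈ h.support, j = i := by
      intro j hj
      have e1 := Finset.min'_le _ j hj
      have e2 : b - j ∈ h.support := by
        rw [Finsupp.mem_support_iff, hsym]
        exact Finsupp.mem_support_iff.1 hj
      have e3 := Finset.min'_le _ _ e2
      omega
    have : h.support ⊆ {i} := fun j hj => Finset.mem_singleton.2 (hall j hj)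
    have := Finset.card_le_card this
    rw [Finset.card_singleton] at this
    omega
  obtain ⟨i0, hi0, hi0', hi0p⟩ := minS f a i1 hf hcf (by omega) hi1'
  obtain ⟨j0, hj0, hj0', hj0p⟩ := minS g (w - a) j1 hg hcg (by omega) hj1'
  have hr0 : r (i0 + j0) = f i0 * g j0 := by
    rw [hr, Finsupp.sum, ← Finset.add_sum_erase _ _ hi0, add_sub_cancel_left]
    have : ∑ x ∈ f.support.erase i0, f x * g (i0 + j0 - x) = 0 := by
      refine Finset.sum_eq_zero fun i hi => ?_
      rw [Finset.mem_erase] at hi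
      have h5 := hi0' i hi.2
      have h6 : g (i0 + j0 - i) = 0 := by
        by_contra h7
        have h8 := hj0' _ (Finsupp.mem_support_iff.2 h7)
        exact hi.1 (by omega)
      rw [h6, mul_zero]
    rw [this, add_zero]
  have hne0 : r (i0 + j0) ≠ 0 := by
    rw [hr0]
    exact mul_ne_zero (Finsupp.mem_support_iff.1 hi0) (Finsupp.mem_support_iff.1 hj0)
  have hl1 : l ≤ i0 + j0 := by
    by_contra hlt
    exact hne0 (hlow _ (not_le.1 hlt))
  have hl2 : i0 + j0 ≤ l := by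
    have h4 : ∃ i ∈ f.support, f i * g (l - i) ≠ 0 := by
      by_contra hno
      push Not at hno
      exact hl (by rw [hr, Finsupp.sum]; exact Finset.sum_eq_zero hno)
    obtain ⟨i, hi, hi'⟩ := h4
    have h5 := hi0' i hi
    have h6 := hj0' (l - i) (Finsupp.mem_support_iff.2 (right_ne_zero_of_mul hi'))
    omega
  apply h3
  rw [le_antisymm hl1 hl2, hr0, sq]
  exact mul_dvd_mul hi0p hj0p

theorem choose_mod {p x y k : ℕ} (hp : p.Prime) (hk : k < p) (hxy : x ≡ y [MOD p]) : x.choose k ≡ y.choose k [MOD p] := by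
  have := Fact.mk hp
  have h1 := Choose.choose_modEq_choose_mod_mul_choose_div_nat (p := p) (n := x) (k := k)
  have h2 := Choose.choose_modEq_choose_mod_mul_choose_div_nat (p := p) (n := y) (k := k)
  rw [Nat.mod_eq_of_lt hk, Nat.div_eq_of_lt hk, Nat.choose_zero_right, mul_one] at h1 h2
  have h3 : x % p = y % p := hxy
  rw [h3] at h1
  exact h1.trans h2.symm

theorem indec_hyp {N d p : ℕ} (hN : Even N) (h2 : 2 ≤ N) (hp : p.Prime) (hNp : N + 2 < p) (h1 : p ∣ d - 2)
    (hp2 : ¬ p ^ 2 ∣ d - 2) (hd : 3 ≤ d) : NI.Indec (N : ℤ) (hyp N d) := by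
  obtain ⟨m, hm⟩ := hN
  obtain ⟨e, rfl⟩ : ∃ e, d = e + 1 := ⟨d - 1, by omega⟩
  have he1 : e + 1 - 2 = e - 1 := by omega
  rw [he1] at h1 hp2
  have hle : p ≤ e - 1 := Nat.le_of_dvd (by omega) h1
  have hmod : e ≡ 1 [MOD p] := ((Nat.modEq_iff_dvd' (by omega)).2 h1).symm
  -- the numbers below the middle modulo `p`
  have hval : ∀ j : ℕ, j ≤ m → (hyp N (e + 1) j : ℤ) ≡
      ∑ i ∈ range (j + 1), (-1) ^ i * ((N + 2).choose i : ℤ) * (((2 * j + 1 - i).choose (N + 1) : ℕ) : ℤ) [ZMOD p] := by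
    intro j hj
    rw [hyp_binom (by omega : j ≤ N)]
    refine Int.ModEq.sum fun i hi => ?_
    rw [Finset.mem_range] at hi
    refine Int.ModEq.mul_left _ ?_
    rw [Int.natCast_modEq_iff]
    refine choose_mod hp (by omega) ?_
    have e1 : 2 * j + 1 - i = (j + 1 - i) * 1 + j := by omega
    rw [e1]
    exact Nat.ModEq.add_right _ (Nat.ModEq.mul_left _ hmod)
  have hlowmid : ∀ j : ℕ, j < m → p ∣ hyp N (e + 1) j := by
    intro j hj
    have h3 := hval j hj.le
    have h4 : ∑ i ∈ range (j + 1), (-1) ^ i * ((N + 2).choose i : ℤ) * (((2 * j + 1 - i).choose (N + 1) : ℕ) : ℤ) = 0 := by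
      refine Finset.sum_eq_zero fun i _ => ?_
      rw [Nat.choose_eq_zero_of_lt (show 2 * j + 1 - i < N + 1 by omega)]
      simp
    rw [h4] at h3
    exact_mod_cast Int.modEq_zero_iff_dvd.1 h3
  have hmid : ¬ p ∣ hyp N (e + 1) m := by
    have h3 := hval m le_rfl
    have h4 : ∑ i ∈ range (m + 1), (-1) ^ i * ((N + 2).choose i : ℤ) * (((2 * m + 1 - i).choose (N + 1) : ℕ) : ℤ) = 1 := by
      rw [Finset.sum_eq_single_of_mem 0 (Finset.mem_range.2 (by omega))]
      · have e1 : 2 * m + 1 - 0 = N + 1 := by omega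
        rw [e1, Nat.choose_self]
        simp
      · intro i _ hi
        rw [Nat.choose_eq_zero_of_lt (show 2 * m + 1 - i < N + 1 by omega)]
        simp
    rw [h4] at h3
    intro h5
    have h6 : (hyp N (e + 1) m : ℤ) ≡ 0 [ZMOD p] := Int.modEq_zero_iff_dvd.2 (by exact_mod_cast h5)
    have h7 := h6.symm.trans h3
    have h8 : (p : ℤ) ∣ 1 := by
      have := h7.symm
      rw [Int.modEq_zero_iff_dvd] at this
      exact this
    have h9 : p ∣ 1 := by exact_mod_cast h8
    exact hp.one_lt.ne' (Nat.dvd_one.1 h9)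
  refine indec_of_prime (c := m) (l := 0) hp (by rw [hm]; push_cast; ring) ?_ hmid ?_ ?_ ?_
  · intro j hj
    by_cases h0 : hyp N (e + 1) j = 0
    · rw [h0]
      exact dvd_zero _
    obtain ⟨h3, h4⟩ := hyp_supp h0
    rcases lt_or_gt_of_ne hj with h5 | h5
    · obtain ⟨k, rfl⟩ := Int.eq_ofNat_of_zero_le h3
      exact hlowmid k (by exact_mod_cast h5)
    · obtain ⟨k, hk⟩ := Int.eq_ofNat_of_zero_le (by omega : 0 ≤ (N : ℤ) - j)
      have h6 := hyp_symm N (e + 1) j
      rw [hk] at h6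
      rw [← h6]
      exact hlowmid k (by omega)
  · rw [show (0 : ℤ) = ((0 : ℕ) : ℤ) from rfl]
    have := hyp_zero N e
    rw [show (0 : ℤ) = ((0 : ℕ) : ℤ) from rfl] at this
    rw [this]
    exact (Nat.choose_pos (by omega)).ne'
  · intro j hj
    by_contra h0
    have := (hyp_supp h0).1
    omega
  · rw [hyp_zero]
    intro h3
    apply hp2
    have h4 : e.choose (N + 1) ∣ e.descFactorial (N + 1) := by
      rw [Nat.descFactorial_eq_factorial_mul_choose]
      exact Dvd.intro_left _ rfl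
    have h5 := h3.trans h4
    rw [Nat.descFactorial_eq_prod_range, ← Finset.mul_prod_erase _ _ (Finset.mem_range.2 (by omega : 1 < N + 1))] at h5
    refine Nat.Coprime.dvd_of_dvd_mul_right ?_ h5
    refine Nat.Coprime.pow_left 2 (Nat.Coprime.prod_right fun i hi => ?_)
    rw [Finset.mem_erase, Finset.mem_range] at hi
    rw [Nat.Prime.coprime_iff_not_dvd hp]
    intro h6
    -- `e - i ≡ 1 - i`
    have h7 : (p : ℤ) ∣ (e : ℤ) - 1 := by
      have : ((e - 1 : ℕ) : ℤ) = (e : ℤ) - 1 := by omega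
      rw [← this]
      exact_mod_cast h1
    have h8 : (p : ℤ) ∣ (e : ℤ) - i := by
      have : ((e - i : ℕ) : ℤ) = (e : ℤ) - i := by omega
      rw [← this]
      exact_mod_cast h6
    have h9 : (p : ℤ) ∣ (i : ℤ) - 1 := by
      have := dvd_sub h7 h8
      rwa [sub_sub_sub_cancel_left] at this
    rcases Nat.eq_zero_or_pos i with rfl | hi0
    · have : (p : ℤ) ∣ 1 := by
        rw [← dvd_neg]
        simpa using h9
      have h10 : p ∣ 1 := by exact_mod_cast this
      exact hp.one_lt.ne' (Nat.dvd_one.1 h10)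
    · have h10 : ((i - 1 : ℕ) : ℤ) = (i : ℤ) - 1 := by omega
      rw [← h10] at h9
      have h11 : p ∣ i - 1 := by exact_mod_cast h9
      have := Nat.le_of_dvd (by omega) h11
      omega

/-- the primitive Betti number -/
theorem prm_eq {N d : ℕ} (hN : Even N) (hd : 2 ≤ d) : prm N d * d = (d - 1) * ((d - 1) ^ (N + 1) + 1) := by
  have : NeZero d := ⟨by omega⟩
  have h1 := dim_mm (N := N) (d := d) hN
  have h2 := mm_mul d hN
  have h3 : ((d - 1 : ℕ) : ℤ) = (d : ℤ) - 1 := by omega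
  have h4 : ((prm N d * d : ℕ) : ℤ) = (((d - 1) * ((d - 1) ^ (N + 1) + 1) : ℕ) : ℤ) := by
    push_cast [h3]
    have h5 : ((prm N d : ℕ) : ℤ) = ((d : ℤ) - 1) * mm N d := h1
    rw [h5, mul_assoc, mul_comm (mm N d) (d : ℤ), h2]
  exact_mod_cast h4

theorem gcd_hyp {N d : ℕ} (hN : Even N) (h2 : 2 ≤ N) (hd : 3 ≤ d) :
    Nat.gcd (prm N d) (mom N d) ≤ (N + 1) * (N + 2) * (d - 1) := by
  have : NeZero d := ⟨by omega⟩
  have h1 := gcd_hyp14 (N := N) (d := d) hN
  exact Nat.le_of_dvd (Nat.mul_pos (by positivity) (by omega)) h1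

end MH.HY
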