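import Mathlib

/-!
Project HY (MP_b8862a_ag): for a polynomial `F` of odd degree with integral coefficients and `a ≠ 0` the numbers `F(t)` and `F(t + a)`
are both squares for finitely many `t` only (Runge's method for `F(t) F(t + a)`).
-/

open Polynomial

namespace MH.HY

/-- the polynomial part of a square root -/
theorem exists_sqrt {G : ℚ[X]} {N : ℕ} {c : ℚ} (hc : c ≠ 0) (h1 : G.coeff (2 * N) = c ^ 2)
    (h2 : ∀ i, 2 * N < i → G.coeff i = 0) : ∀ k, k ≤ N → ∃ P : ℚ[X], P.coeff N = c ∧ (∀ i, N < i → P.coeff i = 0) ∧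
      ∀ i, 2 * N - k ≤ i → (G - P * P).coeff i = 0 := by
  have mulX : ∀ (P : ℚ[X]) (a : ℚ) (j i : ℕ), (P * (C a * X ^ j)).coeff i = if j ≤ i then a * P.coeff (i - j) else 0 := by
    intro P a j i
    rw [mul_left_comm, coeff_C_mul, coeff_mul_X_pow']
    split_ifs <;> ring
  intro k
  induction k with
  | zero =>
    intro _
    refine ⟨C c * X ^ N, ?_, ?_, ?_⟩
    · rw [coeff_C_mul, coeff_X_pow, if_pos rfl, mul_one]
    · intro i hi
      rw [coeff_C_mul, coeff_X_pow, if_neg (by omega), mul_zero]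
    · intro i hi
      rw [coeff_sub, mulX, coeff_C_mul, coeff_X_pow]
      rcases Nat.lt_or_ge (2 * N) i with h3 | h3
      · rw [h2 i h3, if_neg (show ¬ i - N = N by omega)]
        simp
      · have h4 : i = 2 * N := by omega
        subst h4
        rw [h1, if_pos (show N ≤ 2 * N by omega), if_pos (show 2 * N - N = N by omega)]
        ring
  | succ k ih =>
    intro hk
    obtain ⟨P, hP1, hP2, hP3⟩ := ih (by omega)
    obtain ⟨j, hj⟩ : ∃ j, N = k + 1 + j := ⟨N - (k + 1), by omega⟩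
    obtain ⟨r, hr⟩ : ∃ r, r = (G - P * P).coeff (2 * N - (k + 1)) := ⟨_, rfl⟩
    refine ⟨P + C (r / (2 * c)) * X ^ j, ?_, ?_, ?_⟩
    · rw [coeff_add, hP1, coeff_C_mul, coeff_X_pow, if_neg (by omega)]
      ring
    · intro i hi
      rw [coeff_add, hP2 i hi, coeff_C_mul, coeff_X_pow, if_neg (by omega)]
      ring
    · intro i hi
      have e1 : G - (P + C (r / (2 * c)) * X ^ j) * (P + C (r / (2 * c)) * X ^ j) =
          (G - P * P) - (P * (C (r / c) * X ^ j) + C (r / (2 * c)) * X ^ j * (C (r / (2 * c)) * X ^ j)) := by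
        have e2 : C (r / c) = C (r / (2 * c)) + C (r / (2 * c)) := by
          rw [← C_add]
          congr 1
          field_simp
          ring
        rw [e2]
        ring
      have e3 : (C (r / (2 * c)) * X ^ j * (C (r / (2 * c)) * X ^ j)).coeff i = 0 := by
        rw [mulX, coeff_C_mul, coeff_X_pow, if_neg (show ¬ i - j = j by omega)]
        simp
      rw [e1, coeff_sub, coeff_add, e3, add_zero, mulX, if_pos (show j ≤ i by omega)]
      rcases Nat.lt_or_ge (2 * N - (k + 1)) i with h3 | h3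
      · rw [hP3 i (by omega), hP2 (i - j) (by omega)]
        ring
      · have h4 : i = 2 * N - (k + 1) := by omega
        have h5 : i - j = N := by omega
        rw [h5, hP1, h4, ← hr]
        field_simp
        ring

/-- a polynomial of odd degree times a translate of it is not a square -/
theorem not_sq_translate {F : ℂ[X]} (hF : Odd F.natDegree) {a : ℂ} (ha : a ≠ 0) (P : ℂ[X]) :
    F * F.comp (X + C a) ≠ P * P := by
  classical
  intro hP
  have hF0 : F ≠ 0 := by
    intro h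
    rw [h, natDegree_zero] at hF
    exact absurd hF (by decide)
  have hFa : F.comp (X + C a) ≠ 0 := by
    rw [Ne, comp_X_add_C_eq_zero_iff]
    exact hF0
  have hPP : P * P ≠ 0 := by
    rw [← hP]
    exact mul_ne_zero hF0 hFa
  have hrm : ∀ z, (F.comp (X + C a)).rootMultiplicity z = F.rootMultiplicity (z + a) := by
    intro z
    rw [rootMultiplicity_eq_rootMultiplicity (p := F.comp (X + C a)), rootMultiplicity_eq_rootMultiplicity (p := F),
      comp_assoc]
    congr 2
    rw [add_comp, X_comp, C_comp, C_add, add_assoc]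
  have heven : ∀ z, Even (F.rootMultiplicity z + F.rootMultiplicity (z + a)) := by
    intro z
    rw [← hrm, ← rootMultiplicity_mul (mul_ne_zero hF0 hFa), hP, rootMultiplicity_mul hPP]
    exact ⟨_, rfl⟩
  have hall : ∀ z, Even (F.rootMultiplicity z) := by
    intro z
    by_contra hz
    have h1 : ∀ k : ℕ, ¬ Even (F.rootMultiplicity (z + k * a)) := by
      intro k
      induction k with
      | zero => simpa using hz
      | succ k ih =>
        have h2 := heven (z + k * a)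
        have h3 : z + ((k + 1 : ℕ) : ℂ) * a = z + k * a + a := by push_cast; ring
        rw [h3]
        intro h4
        exact ih ((Nat.even_add.1 h2).2 h4)
    have h2 : ∀ k : ℕ, z + k * a ∈ F.roots.toFinset := by
      intro k
      rw [Multiset.mem_toFinset, mem_roots hF0]
      rw [← rootMultiplicity_pos hF0]
      by_contra h3
      have h4 : F.rootMultiplicity (z + k * a) = 0 := by omega
      exact h1 k (by rw [h4]; exact ⟨0, rfl⟩)
    have h3 : Function.Injective fun k : ℕ => z + k * a := by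
      intro k l hkl
      have h4 : (k : ℂ) * a = l * a := add_left_cancel hkl
      exact_mod_cast mul_right_cancel₀ ha h4
    exact Set.infinite_of_injective_forall_mem h3 h2 (F.roots.toFinset.finite_toSet)
  have hcard : F.roots.card = F.natDegree := splits_iff_card_roots.1 (IsAlgClosed.splits F)
  rw [← hcard, ← Multiset.toFinset_sum_count_eq] at hF
  refine (Nat.not_even_iff_odd.2 hF) (Finset.even_sum _ fun z _ => ?_)
  rw [count_roots]
  exact hall z

/-- **Runge's method**: `F(t)` and `F(t + a)` are both squares only for finitely many `t` -/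
theorem runge {F : ℤ[X]} (hF : Odd F.natDegree) {a : ℕ} (ha : 0 < a) :
    ∃ T : ℕ, ∀ t : ℕ, T ≤ t → ¬ (IsSquare (F.eval (t : ℤ)) ∧ IsSquare (F.eval ((t : ℤ) + a))) := by
  obtain ⟨N, hN⟩ : ∃ N, N = F.natDegree := ⟨_, rfl⟩
  obtain ⟨f, hf⟩ : ∃ f : ℚ[X], f = F.map (Int.castRingHom ℚ) := ⟨_, rfl⟩
  have hinj : Function.Injective (Int.castRingHom ℚ) := Int.cast_injective
  have hfN : f.natDegree = N := by rw [hf, hN]; exact natDegree_map_eq_of_injective hinj F
  obtain ⟨c, hc⟩ : ∃ c, c = f.leadingCoeff := ⟨_, rfl⟩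
  have hN0 : N ≠ 0 := by
    intro h
    rw [← hN, h] at hF
    exact absurd hF (by decide)
  have hf0 : f ≠ 0 := by
    intro h
    rw [h, natDegree_zero] at hfN
    omega
  have hc0 : c ≠ 0 := by rw [hc]; exact leadingCoeff_ne_zero.2 hf0
  obtain ⟨g, hg⟩ : ∃ g : ℚ[X], g = f.comp (X + C (a : ℚ)) := ⟨_, rfl⟩
  have hgN : g.natDegree = N := by rw [hg, natDegree_comp, natDegree_X_add_C, mul_one, hfN]
  have hgc : g.leadingCoeff = c := by
    rw [hg, leadingCoeff_comp (by rw [natDegree_X_add_C]; exact one_ne_zero), leadingCoeff_X_add_C, one_pow, mul_one, hc]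
  obtain ⟨G, hG⟩ : ∃ G : ℚ[X], G = f * g := ⟨_, rfl⟩
  have hG1 : G.coeff (2 * N) = c ^ 2 := by
    rw [hG, two_mul]
    have := coeff_mul_degree_add_degree f g
    rw [hfN, hgN, ← hc, hgc] at this
    rw [this, sq]
  have hG2 : ∀ i, 2 * N < i → G.coeff i = 0 := by
    intro i hi
    refine coeff_eq_zero_of_natDegree_lt (lt_of_le_of_lt ?_ hi)
    rw [hG]
    refine natDegree_mul_le.trans ?_
    rw [hfN, hgN]
    omega
  obtain ⟨P, hP1, hP2, hP3⟩ := exists_sqrt hc0 hG1 hG2 N le_rfl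
  have hPdeg : P.degree = N := by
    apply le_antisymm
    · rw [degree_le_iff_coeff_zero]
      intro i hi
      exact hP2 i (by exact_mod_cast hi)
    · exact le_degree_of_ne_zero (by rw [hP1]; exact hc0)
  obtain ⟨R, hR⟩ : ∃ R, R = G - P * P := ⟨_, rfl⟩
  have hRdeg : R.degree < N := by
    rw [hR, degree_lt_iff_coeff_zero]
    intro i hi
    exact hP3 i (by omega)
  have hR0 : R ≠ 0 := by
    intro h0
    rw [hR, sub_eq_zero] at h0
    have h1 : (F.map (Int.castRingHom ℂ)) * (F.map (Int.castRingHom ℂ)).comp (X + C (a : ℂ)) =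
        P.map (algebraMap ℚ ℂ) * P.map (algebraMap ℚ ℂ) := by
      rw [← Polynomial.map_mul, ← h0, hG, Polynomial.map_mul, hg, Polynomial.map_comp, hf, Polynomial.map_map]
      have e1 : (algebraMap ℚ ℂ).comp (Int.castRingHom ℚ) = Int.castRingHom ℂ := RingHom.ext_int _ _
      rw [e1, Polynomial.map_add, map_X, map_C]
      congr 4
    refine not_sq_translate (F := F.map (Int.castRingHom ℂ)) ?_ (by exact_mod_cast ha.ne') _ h1
    rw [natDegree_map_eq_of_injective (RingHom.injective_int _)]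
    exact hF
  -- a common denominator
  obtain ⟨M, hM0, hM⟩ : ∃ M : ℕ, 0 < M ∧ ∀ t : ℕ, ∃ u : ℤ, (M : ℚ) * P.eval (t : ℚ) = u := by
    refine ⟨∏ i ∈ Finset.range (N + 1), (P.coeff i).den, Finset.prod_pos fun i _ => (P.coeff i).den_pos, fun t => ?_⟩
    have h1 : ∀ i ∈ Finset.range (N + 1), ∃ v : ℤ,
        ((∏ i ∈ Finset.range (N + 1), (P.coeff i).den : ℕ) : ℚ) * P.coeff i = v := by
      intro i hi
      rw [← Finset.mul_prod_erase _ _ hi]
      refine ⟨(P.coeff i).num * ((∏ x ∈ (Finset.range (N + 1)).erase i, (P.coeff x).den : ℕ) : ℤ), ?_⟩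
      have h2 := Rat.den_mul_eq_num (P.coeff i)
      push_cast at h2 ⊢
      rw [← h2]
      ring
    choose! v hv using h1
    refine ⟨∑ i ∈ Finset.range (N + 1), v i * (t : ℤ) ^ i, ?_⟩
    rw [eval_eq_sum_range' (n := N + 1) (by rw [natDegree_eq_of_degree_eq_some hPdeg]; omega), Finset.mul_sum]
    push_cast
    refine Finset.sum_congr rfl fun i hi => ?_
    rw [← hv i hi]
    push_cast
    ring
  -- real estimates
  have hmapinj : Function.Injective (Rat.castHom ℝ) := RingHom.injective _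
  have hev : ∀ (Q : ℚ[X]) (t : ℕ), (Q.map (Rat.castHom ℝ)).eval (t : ℝ) = ((Q.eval (t : ℚ) : ℚ) : ℝ) := by
    intro Q t
    have h1 := eval₂_at_apply (Rat.castHom ℝ) (p := Q) (t : ℚ)
    have h2 : (Rat.castHom ℝ) (t : ℚ) = (t : ℝ) := by simp
    rw [h2] at h1
    rw [eval_map]
    exact h1
  have hdiv : Filter.Tendsto (fun x : ℝ => (R.map (Rat.castHom ℝ)).eval x / (P.map (Rat.castHom ℝ)).eval x)
      Filter.atTop (nhds 0) := by
    apply div_tendsto_atTop_zero_of_degree_lt
    rw [degree_map_eq_of_injective hmapinj, degree_map_eq_of_injective hmapinj, hPdeg]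
    exact hRdeg
  have hroot := eventually_atTop_not_isRoot (R.map (Rat.castHom ℝ)) ((Polynomial.map_ne_zero_iff hmapinj).2 hR0)
  have hP0 : P ≠ 0 := by
    intro h
    rw [h, degree_zero] at hPdeg
    exact absurd hPdeg (by simp)
  have hroot2 := eventually_atTop_not_isRoot (P.map (Rat.castHom ℝ)) ((Polynomial.map_ne_zero_iff hmapinj).2 hP0)
  have hMr : (0 : ℝ) < M := by exact_mod_cast hM0
  have hlt : ∀ᶠ x : ℝ in Filter.atTop,
      |(R.map (Rat.castHom ℝ)).eval x / (P.map (Rat.castHom ℝ)).eval x| < 1 / M := by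
    have h1 := hdiv.abs
    rw [abs_zero] at h1
    exact h1.eventually_lt_const (by positivity)
  obtain ⟨x0, hx0⟩ := Filter.eventually_atTop.1 (hlt.and (hroot.and hroot2))
  refine ⟨⌈x0⌉₊, fun t ht hsq => ?_⟩
  have hx : x0 ≤ (t : ℝ) := (Nat.le_ceil x0).trans (by exact_mod_cast ht)
  obtain ⟨h1, h2, h3⟩ := hx0 t hx
  rw [IsRoot.def, hev] at h2 h3
  rw [hev, hev] at h1
  obtain ⟨⟨y, hy⟩, ⟨z, hz⟩⟩ := hsq
  obtain ⟨u, hu⟩ := hM t
  have h2' : R.eval (t : ℚ) ≠ 0 := by exact_mod_cast h2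
  have h3' : P.eval (t : ℚ) ≠ 0 := by exact_mod_cast h3
  have h1' : |R.eval (t : ℚ) / P.eval (t : ℚ)| < 1 / M := by
    have h0 : ((|R.eval (t : ℚ) / P.eval (t : ℚ)| : ℚ) : ℝ) < ((1 / (M : ℚ) : ℚ) : ℝ) := by
      push_cast
      exact h1
    exact Rat.cast_lt.1 h0
  have hMq : (0 : ℚ) < M := by exact_mod_cast hM0
  have h4 : (M : ℚ) ^ 2 * |R.eval (t : ℚ)| < M * |P.eval (t : ℚ)| := by
    rw [abs_div, div_lt_div_iff₀ (abs_pos.2 h3') hMq, one_mul] at h1'
    nlinarith
  have hfe : f.eval (t : ℚ) = ((F.eval (t : ℤ) : ℤ) : ℚ) := by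
    have h5 := eval₂_at_apply (Int.castRingHom ℚ) (p := F) (t : ℤ)
    have h6 : (Int.castRingHom ℚ) (t : ℤ) = (t : ℚ) := by simp
    rw [h6] at h5
    rw [hf, eval_map]
    exact h5
  have hge : g.eval (t : ℚ) = ((F.eval ((t : ℤ) + a) : ℤ) : ℚ) := by
    have h5 := eval₂_at_apply (Int.castRingHom ℚ) (p := F) ((t : ℤ) + a)
    have h6 : (Int.castRingHom ℚ) ((t : ℤ) + a) = (t : ℚ) + a := by simp
    rw [h6] at h5
    rw [hg, eval_comp, eval_add, eval_X, eval_C, hf, eval_map]
    exact h5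
  have h6 : R.eval (t : ℚ) = ((y * z : ℤ) : ℚ) ^ 2 - (P.eval (t : ℚ)) ^ 2 := by
    rw [hR, eval_sub, hG, eval_mul, eval_mul, hfe, hge, hy, hz]
    push_cast
    ring
  have h7 : (M : ℚ) ^ 2 * R.eval (t : ℚ) = (((M * (y * z)) ^ 2 - u ^ 2 : ℤ) : ℚ) := by
    rw [h6]
    push_cast
    rw [← hu]
    ring
  obtain ⟨A, hA⟩ : ∃ A : ℤ, A = M * (y * z) := ⟨_, rfl⟩
  rw [← hA] at h7
  have h8 : A ^ 2 - u ^ 2 ≠ 0 := by
    intro h
    rw [h, Int.cast_zero] at h7
    exact (mul_ne_zero (pow_ne_zero 2 hMq.ne') h2') h7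
  have h9 : |u| ≤ |A ^ 2 - u ^ 2| := by
    have e1 : A ^ 2 - u ^ 2 = (|A| - |u|) * (|A| + |u|) := by
      rw [← sq_abs A, ← sq_abs u]
      ring
    have e2 : |A| - |u| ≠ 0 := by
      intro h
      rw [h, zero_mul] at e1
      exact h8 e1
    have e3 : 1 ≤ |(|A| - |u|)| := Int.one_le_abs e2
    rw [e1, abs_mul, abs_of_nonneg (add_nonneg (abs_nonneg A) (abs_nonneg u))]
    nlinarith [abs_nonneg A, abs_nonneg u]
  have h10 : (M : ℚ) * |P.eval (t : ℚ)| = ((|u| : ℤ) : ℚ) := by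
    calc (M : ℚ) * |P.eval (t : ℚ)| = |(M : ℚ) * P.eval (t : ℚ)| := by rw [abs_mul, abs_of_pos hMq]
      _ = |(u : ℚ)| := by rw [hu]
      _ = _ := (Int.cast_abs ..).symm
  have h11 : (M : ℚ) ^ 2 * |R.eval (t : ℚ)| = ((|A ^ 2 - u ^ 2| : ℤ) : ℚ) := by
    have e1 : (0 : ℚ) < (M : ℚ) ^ 2 := by positivity
    calc (M : ℚ) ^ 2 * |R.eval (t : ℚ)| = |(M : ℚ) ^ 2 * R.eval (t : ℚ)| := by rw [abs_mul, abs_of_pos e1]
      _ = |((A ^ 2 - u ^ 2 : ℤ) : ℚ)| := by rw [h7]
      _ = _ := (Int.cast_abs ..).symm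
  rw [h10, h11] at h4
  have h12 : |A ^ 2 - u ^ 2| < |u| := by exact_mod_cast h4
  omega

end MH.HY
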