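import Pool.Agent.Helper21.HY.Ind
import Pool.Agent.Helper21.HY.Runge
import Pool.Agent.Helper14.PW.Zero

/-!
Project HY (MP_b8862a_ag), block 8: the degrees for which the theorem holds have density one.
-/

open Finset PW

namespace MH.HY

/-- a set with gaps that tend to infinity has density zero -/
theorem zero_of_gaps {S : Set ℕ} (h : ∀ a : ℕ, 0 < a → ∃ T : ℕ, ∀ t, T ≤ t → ¬ (t ∈ S ∧ t + a ∈ S)) : PW.Zero S := by
  classical
  intro K
  rcases Nat.eq_zero_or_pos K with rfl | hK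
  · exact ⟨0, fun X _ => by simp⟩
  have h1 : ∃ T : ℕ, ∀ t, T ≤ t → ∀ a, 0 < a → a ≤ 2 * K → ¬ (t ∈ S ∧ t + a ∈ S) := by
    have h2 : ∀ L : ℕ, ∃ T : ℕ, ∀ t, T ≤ t → ∀ a, 0 < a → a ≤ L → ¬ (t ∈ S ∧ t + a ∈ S) := by
      intro L
      induction L with
      | zero => exact ⟨0, fun t _ a h3 h4 => by omega⟩
      | succ L ih =>
        obtain ⟨T1, hT1⟩ := ih
        obtain ⟨T2, hT2⟩ := h (L + 1) (by omega)
        refine ⟨max T1 T2, fun t ht a h3 h4 => ?_⟩
        rcases Nat.lt_or_ge L a with h5 | h5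
        · have h6 : a = L + 1 := by omega
          rw [h6]
          exact hT2 t (le_trans (le_max_right _ _) ht)
        · exact hT1 t (le_trans (le_max_left _ _) ht) a h3 h5
    exact h2 _
  obtain ⟨T, hT⟩ := h1
  refine ⟨2 * K * (T + 1), fun X hX => ?_⟩
  have h2 : cn S X ≤ T + (X / (2 * K + 1) + 1) := by
    have h3 : cn S X ≤ (range T ∪ (((Icc T X).filter (· ∈ S)))).card := by
      refine cn_le14 fun n h3 h4 h5 => ?_
      rw [mem_union, mem_range, mem_filter, mem_Icc]
      rcases Nat.lt_or_ge n T with h6 | h6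
      · exact Or.inl h6
      · exact Or.inr ⟨⟨h6, h4⟩, h5⟩
    have h4 : ((Icc T X).filter (· ∈ S)).card ≤ (range (X / (2 * K + 1) + 1)).card := by
      refine card_le_card_of_injOn (fun t => t / (2 * K + 1)) ?_ ?_
      · intro t ht
        have ht := (mem_filter.1 (mem_coe.1 ht)).1
        rw [mem_Icc] at ht
        rw [mem_coe, mem_range]
        show t / (2 * K + 1) < X / (2 * K + 1) + 1
        have := Nat.div_le_div_right (c := 2 * K + 1) ht.2
        omega
      · have key : ∀ t ∈ (Icc T X).filter (· ∈ S), ∀ t' ∈ (Icc T X).filter (· ∈ S), t < t' →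
            t / (2 * K + 1) < t' / (2 * K + 1) := by
          intro t ht t' ht' hlt
          rw [mem_filter, mem_Icc] at ht ht'
          have h5 : 2 * K < t' - t := by
            by_contra h6
            rw [not_lt] at h6
            refine hT t ht.1.1 (t' - t) (by omega) h6 ⟨ht.2, ?_⟩
            rw [Nat.add_sub_cancel' hlt.le]
            exact ht'.2
          have h7 : t / (2 * K + 1) + 1 = (t + (2 * K + 1)) / (2 * K + 1) := (Nat.add_div_right t (by omega)).symm
          have h8 : (t + (2 * K + 1)) / (2 * K + 1) ≤ t' / (2 * K + 1) := Nat.div_le_div_right (by omega)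
          omega
        intro t ht t' ht' heq
        simp only at heq
        rcases lt_trichotomy t t' with h5 | h5 | h5
        · have := key t ht t' ht' h5
          omega
        · exact h5
        · have := key t' ht' t ht h5
          omega
    refine h3.trans ((card_union_le _ _).trans ?_)
    rw [card_range] at h4 ⊢
    omega
  have h3 : 2 * (K * (X / (2 * K + 1))) ≤ X := by
    have h4 := Nat.div_mul_le_self X (2 * K + 1)
    nlinarith
  have h4 := Nat.mul_le_mul_left K h2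
  have h5 : K * (T + (X / (2 * K + 1) + 1)) = K * (T + 1) + K * (X / (2 * K + 1)) := by ring
  have h6 : 2 * K * (T + 1) = 2 * (K * (T + 1)) := by ring
  omega

theorem _root_.PW.Zero.mono21 {A B : Set ℕ} (h : PW.Zero B) (hAB : A ⊆ B) : PW.Zero A := by
  classical
  intro K
  obtain ⟨X0, hX0⟩ := h K
  refine ⟨X0, fun X hX => le_trans (Nat.mul_le_mul_left K ?_) (hX0 X hX)⟩
  refine (cn_le14 (T := (Icc 1 X).filter (· ∈ B)) fun n h1 h2 h3 => ?_).trans (le_of_eq ?_)
  · rw [mem_filter, mem_Icc]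
    exact ⟨⟨h1, h2⟩, hAB h3⟩
  · unfold cn
    congr

/-- translates of sets of density zero -/
theorem _root_.PW.Zero.shift21 {A : Set ℕ} (h : PW.Zero A) (k : ℕ) : PW.Zero {n | n - k ∈ A ∧ k < n} := by
  classical
  intro K
  obtain ⟨X0, hX0⟩ := h K
  refine ⟨X0, fun X hX => le_trans (Nat.mul_le_mul_left K ?_) (hX0 X hX)⟩
  refine (cn_le14 (T := ((Icc 1 X).filter (· ∈ A)).image (· + k)) fun n h1 h2 h3 => ?_).trans
    (card_image_le.trans (le_of_eq ?_))
  · have h4 : n - k ∈ A ∧ k < n := h3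
    rw [mem_image]
    refine ⟨n - k, ?_, by omega⟩
    rw [mem_filter, mem_Icc]
    exact ⟨⟨by omega, by omega⟩, h4.1⟩
  · unfold cn
    congr

/-- the numbers which are divisible by the square of each of their prime factors larger than `B` -/
theorem zero_full (B : ℕ) : PW.Zero {n | ∀ p : ℕ, p.Prime → B < p → p ∣ n → p ^ 2 ∣ n} := by
  classical
  intro K
  rcases Nat.eq_zero_or_pos K with rfl | hK
  · exact ⟨0, fun X _ => by simp⟩
  obtain ⟨U, hU⟩ : ∃ U, U = 2 * K := ⟨_, rfl⟩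
  obtain ⟨T, hT⟩ : ∃ T, T = B.factorial * U ^ 3 := ⟨_, rfl⟩
  refine ⟨2 * K * T + U + 1, fun X hX => ?_⟩
  have h1 : cn {n | ∀ p : ℕ, p.Prime → B < p → p ∣ n → p ^ 2 ∣ n} X ≤ T + ∑ b ∈ Ioc U X, X / b ^ 2 := by
    have h2 : cn {n | ∀ p : ℕ, p.Prime → B < p → p ∣ n → p ^ 2 ∣ n} X ≤
        (Icc 1 T ∪ (Ioc U X).biUnion fun b => (Ioc 0 X).filter (b ^ 2 ∣ ·)).card := by
      refine cn_le14 fun n h3 h4 h5 => ?_
      rw [mem_union, mem_Icc, mem_biUnion]
      rcases Nat.lt_or_ge T n with h6 | h6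
      · right
        obtain ⟨a, b, hab, hsf⟩ := Nat.sq_mul_squarefree n
        -- `n = b ^ 2 * a`
        have hb0 : b ≠ 0 := by
          rintro rfl
          rw [zero_pow two_ne_zero, zero_mul] at hab
          omega
        have h7 : a ∣ B.factorial * b := by
          rw [← Nat.prod_primeFactors_of_squarefree hsf]
          refine Finset.prod_primes_dvd _ (fun q hq => (Nat.prime_of_mem_primeFactors hq).prime) fun q hq => ?_
          have hqp := Nat.prime_of_mem_primeFactors hq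
          have hqa := Nat.dvd_of_mem_primeFactors hq
          rcases Nat.lt_or_ge B q with h8 | h8
          · have h9 : q ^ 2 ∣ b ^ 2 * a := by
              rw [hab]
              exact h5 q hqp h8 (by rw [← hab]; exact Dvd.dvd.mul_left hqa _)
            refine Dvd.dvd.mul_left ?_ _
            by_contra h10
            have h11 : Nat.Coprime (q ^ 2) (b ^ 2) :=
              Nat.Coprime.pow _ _ ((Nat.Prime.coprime_iff_not_dvd hqp).2 h10)
            have h12 := h11.dvd_of_dvd_mul_left h9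
            rw [sq] at h12
            exact hqp.one_lt.ne' (Nat.isUnit_iff.1 (hsf q h12))
          · exact Dvd.dvd.mul_right ((Nat.Prime.dvd_factorial hqp).2 h8) _
        have h8 : n ≤ B.factorial * b ^ 3 := by
          rw [← hab]
          have h9 := Nat.le_of_dvd (Nat.mul_pos (Nat.factorial_pos B) (Nat.pos_of_ne_zero hb0)) h7
          calc b ^ 2 * a ≤ b ^ 2 * (B.factorial * b) := Nat.mul_le_mul_left _ h9
            _ = B.factorial * b ^ 3 := by ring
        have h9 : U < b := by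
          by_contra h10
          rw [not_lt] at h10
          have h11 : B.factorial * b ^ 3 ≤ B.factorial * U ^ 3 := Nat.mul_le_mul_left _ (Nat.pow_le_pow_left h10 3)
          omega
        have h10 : b ^ 2 ∣ n := ⟨a, hab.symm⟩
        refine ⟨b, ?_, ?_⟩
        · rw [mem_Ioc]
          refine ⟨h9, ?_⟩
          have h11 := Nat.le_of_dvd (by omega) h10
          nlinarith [Nat.pos_of_ne_zero hb0]
        · rw [mem_filter, mem_Ioc]
          exact ⟨⟨by omega, h4⟩, h10⟩
      · exact Or.inl ⟨h3, h6⟩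
    refine h2.trans ((card_union_le _ _).trans ?_)
    rw [Nat.card_Icc, Nat.add_sub_cancel]
    refine Nat.add_le_add_left (card_biUnion_le.trans (le_of_eq ?_)) _
    exact sum_congr rfl fun b _ => Nat.Ioc_filter_dvd_card_eq_div X (b ^ 2)
  have h2 : ((∑ b ∈ Ioc U X, X / b ^ 2 : ℕ) : ℝ) ≤ X / U := by
    have hUX : U ≤ X := by omega
    have h3 := sum_Ioc_inv_sq_le_sub (α := ℝ) (k := U) (n := X) (by omega) hUX
    push_cast
    calc ∑ b ∈ Ioc U X, ((X / b ^ 2 : ℕ) : ℝ) ≤ ∑ b ∈ Ioc U X, (X : ℝ) * ((b : ℝ) ^ 2)⁻¹ := by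
          refine sum_le_sum fun b _ => ?_
          have h4 := Nat.cast_div_le (α := ℝ) (m := X) (n := b ^ 2)
          push_cast at h4
          rw [← div_eq_mul_inv]
          exact h4
      _ = X * ∑ b ∈ Ioc U X, ((b : ℝ) ^ 2)⁻¹ := by rw [mul_sum]
      _ ≤ X * ((U : ℝ)⁻¹ - (X : ℝ)⁻¹) := mul_le_mul_of_nonneg_left h3 (Nat.cast_nonneg _)
      _ ≤ X / U := by
          rw [div_eq_mul_inv]
          refine mul_le_mul_of_nonneg_left ?_ (Nat.cast_nonneg _)
          have : (0 : ℝ) ≤ (X : ℝ)⁻¹ := by positivity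
          linarith
  have h3 : 2 * K * (∑ b ∈ Ioc U X, X / b ^ 2) ≤ X := by
    have hU0 : (0 : ℝ) < U := by
      have : 0 < U := by omega
      exact_mod_cast this
    rw [le_div_iff₀ hU0] at h2
    have h4 : (∑ b ∈ Ioc U X, X / b ^ 2) * U ≤ X := by exact_mod_cast h2
    rw [hU] at h4
    rw [mul_comm]
    rw [hU]
    exact h4
  have h4 := Nat.mul_le_mul_left K h1
  have h5 : K * (T + ∑ b ∈ Ioc U X, X / b ^ 2) = K * T + K * ∑ b ∈ Ioc U X, X / b ^ 2 := by ring
  have h6 : 2 * K * (∑ b ∈ Ioc U X, X / b ^ 2) = 2 * (K * ∑ b ∈ Ioc U X, X / b ^ 2) := by ring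
  have h7 : 2 * K * T = 2 * (K * T) := by ring
  omega

/-- the degrees for which the primitive Betti number plus one is a square -/
theorem zero_sq {N : ℕ} (hN : Even N) : PW.Zero {d | IsSquare (prm N d + 1)} := by
  classical
  obtain ⟨F, hF⟩ : ∃ F : Polynomial ℤ, F = Polynomial.X * (∑ i ∈ range (N + 1), (-Polynomial.X) ^ i) + 1 := ⟨_, rfl⟩
  have hev : ∀ e : ℕ, F.eval (e : ℤ) = ((prm N (e + 1) + 1 : ℕ) : ℤ) := by
    intro e
    have h1 := dim_mm (N := N) (d := e + 1) hN
    have h2 : ((prm N (e + 1) : ℕ) : ℤ) = (((e + 1 : ℕ) : ℤ) - 1) * mm N (e + 1) := h1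
    rw [hF, Polynomial.eval_add, Polynomial.eval_mul, Polynomial.eval_X, Polynomial.eval_finsetSum, Polynomial.eval_one]
    push_cast at h2 ⊢
    rw [h2]
    unfold mm
    simp only [Polynomial.eval_pow, Polynomial.eval_neg, Polynomial.eval_X]
    push_cast
    rw [add_sub_cancel_right]
  have hc : ∀ i, F.coeff (i + 1) = if i < N + 1 then (-1) ^ i else 0 := by
    intro i
    have h1 : ∀ j : ℕ, ((-Polynomial.X : Polynomial ℤ) ^ j).coeff i = if i = j then (-1) ^ j else 0 := by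
      intro j
      rw [neg_pow, show ((-1 : Polynomial ℤ) ^ j) = Polynomial.C ((-1) ^ j) by simp, Polynomial.coeff_C_mul,
        Polynomial.coeff_X_pow]
      split_ifs <;> ring
    rw [hF, Polynomial.coeff_add, Polynomial.coeff_X_mul, Polynomial.finsetSum_coeff, Polynomial.coeff_one,
      if_neg (by omega), add_zero]
    simp only [h1]
    rw [Finset.sum_ite_eq]
    simp only [mem_range]
  have hdeg : F.natDegree = N + 1 := by
    apply Polynomial.natDegree_eq_of_le_of_coeff_ne_zero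
    · rw [Polynomial.natDegree_le_iff_coeff_eq_zero]
      intro i hi
      obtain ⟨k, rfl⟩ : ∃ k, i = k + 1 := ⟨i - 1, by omega⟩
      rw [hc, if_neg (by omega)]
    · rw [hc, if_pos (by omega)]
      exact pow_ne_zero _ (by norm_num)
  have hodd : Odd F.natDegree := by rw [hdeg]; exact hN.add_one
  have h1 : PW.Zero {e : ℕ | IsSquare (F.eval (e : ℤ))} := by
    refine zero_of_gaps fun a ha => ?_
    obtain ⟨T, hT⟩ := runge hodd ha
    refine ⟨T, fun t ht h => hT t ht ⟨h.1, ?_⟩⟩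
    have h2 : IsSquare (F.eval (((t + a : ℕ) : ℤ))) := h.2
    push_cast at h2
    exact h2
  refine PW.Zero.mono21 ((h1.shift21 1).union14 (PW.Zero.bdd14 2)) fun d hd => ?_
  rcases Nat.lt_or_ge d 2 with h2 | h2
  · exact Or.inr h2
  · refine Or.inl ⟨?_, by omega⟩
    show IsSquare (F.eval (((d - 1 : ℕ) : ℤ)))
    rw [hev, Nat.sub_add_cancel (by omega)]
    obtain ⟨r, hr⟩ := hd
    exact ⟨(r : ℤ), by rw [hr]; push_cast; ring⟩

open Classical in
theorem dens_hyp {N : ℕ} (hN : Even N) (h2 : 2 ≤ N) :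
    Filter.Tendsto (fun x : ℕ => (((Finset.range x).filter fun d => ¬ IsSquare (prm N d + 1) ∧
      (N = 2 ∨ ∃ p : ℕ, p.Prime ∧ N + 2 < p ∧ p ∣ d - 2 ∧ ¬ p ^ 2 ∣ d - 2)).card : ℝ) / x) Filter.atTop (nhds 1) := by
  have hZ : PW.Zero ({d | IsSquare (prm N d + 1)} ∪
      ({n | n - 2 ∈ {n | ∀ p : ℕ, p.Prime → N + 2 < p → p ∣ n → p ^ 2 ∣ n} ∧ 2 < n} ∪ {n | n < 3})) :=
    (zero_sq hN).union14 (((zero_full (N + 2)).shift21 2).union14 (PW.Zero.bdd14 3))
  obtain ⟨S, hS⟩ : ∃ S, S = {d | IsSquare (prm N d + 1)} ∪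
      ({n | n - 2 ∈ {n | ∀ p : ℕ, p.Prime → N + 2 < p → p ∣ n → p ^ 2 ∣ n} ∧ 2 < n} ∪ {n | n < 3}) := ⟨_, rfl⟩
  rw [← hS] at hZ
  have h1 := hZ.tendsto14
  have hsub : ∀ d, d ∉ S → ¬ IsSquare (prm N d + 1) ∧
      (N = 2 ∨ ∃ p : ℕ, p.Prime ∧ N + 2 < p ∧ p ∣ d - 2 ∧ ¬ p ^ 2 ∣ d - 2) := by
    intro d hd
    rw [hS] at hd
    refine ⟨fun h => hd (Or.inl h), Or.inr ?_⟩
    by_contra hno
    push Not at hno
    apply hd
    right
    rcases Nat.lt_or_ge 2 d with h3 | h3
    · exact Or.inl ⟨fun p hp hNp hpd => hno p hp hNp hpd, h3⟩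
    · exact Or.inr (show d < 3 by omega)
  have hcard : ∀ x : ℕ, Nat.card {n : Fin x // (n : ℕ) ∈ S} = ((range x).filter (· ∈ S)).card := by
    intro x
    rw [Nat.card_eq_fintype_card, Fintype.card_subtype]
    refine Finset.card_bij (fun n _ => (n : ℕ)) ?_ (fun a _ b _ h => Fin.ext h) ?_
    · intro n hn
      rw [mem_filter, mem_range]
      exact ⟨n.2, (mem_filter.1 hn).2⟩
    · intro n hn
      rw [mem_filter, mem_range] at hn
      exact ⟨⟨n, hn.1⟩, mem_filter.2 ⟨mem_univ _, hn.2⟩, rfl⟩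
  have h3 : Filter.Tendsto (fun x : ℕ => 1 - (Nat.card {n : Fin x // (n : ℕ) ∈ S} : ℝ) / x) Filter.atTop (nhds 1) := by
    have := h1.const_sub 1
    rwa [sub_zero] at this
  refine tendsto_of_tendsto_of_tendsto_of_le_of_le' h3 tendsto_const_nhds ?_ ?_
  · filter_upwards [Filter.eventually_gt_atTop 0] with x hx
    have hx0 : (0 : ℝ) < x := by exact_mod_cast hx
    rw [le_div_iff₀ hx0, sub_mul, one_mul, div_mul_cancel₀ _ hx0.ne', hcard]
    have h4 : x ≤ ((range x).filter (· ∈ S)).card + ((range x).filter fun d => ¬ IsSquare (prm N d + 1) ∧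
        (N = 2 ∨ ∃ p : ℕ, p.Prime ∧ N + 2 < p ∧ p ∣ d - 2 ∧ ¬ p ^ 2 ∣ d - 2)).card := by
      calc x = ((range x).filter (· ∈ S)).card + ((range x).filter (¬ · ∈ S)).card := by
            rw [Finset.card_filter_add_card_filter_not, card_range]
        _ ≤ _ := by
            refine Nat.add_le_add_left (card_le_card ?_) _
            intro d hd
            rw [mem_filter] at hd ⊢
            exact ⟨hd.1, hsub d hd.2⟩
    have h5 : (x : ℝ) ≤ (((range x).filter (· ∈ S)).card : ℝ) + (((range x).filter fun d => ¬ IsSquare (prm N d + 1) ∧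
        (N = 2 ∨ ∃ p : ℕ, p.Prime ∧ N + 2 < p ∧ p ∣ d - 2 ∧ ¬ p ^ 2 ∣ d - 2)).card : ℝ) := by exact_mod_cast h4
    linarith
  · filter_upwards [Filter.eventually_gt_atTop 0] with x hx
    have hx0 : (0 : ℝ) < x := by exact_mod_cast hx
    rw [div_le_one hx0]
    have h4 := card_filter_le (range x) fun d => ¬ IsSquare (prm N d + 1) ∧
        (N = 2 ∨ ∃ p : ℕ, p.Prime ∧ N + 2 < p ∧ p ∣ d - 2 ∧ ¬ p ^ 2 ∣ d - 2)
    rw [card_range] at h4
    exact_mod_cast h4

end MH.HY
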