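import Pool.Agent.Helper21.HY.Defs

/-!
Project HY (MP_b8862a_ag): the closed formula for the primitive Hodge numbers of hypersurfaces.
-/

open Finset PowerSeries

namespace MH.HY

/-- the generating series of the numbers `1, …, e` -/
theorem gen_mul (e : ℕ) : (∑ a : Fin e, (X : ℤ⟦X⟧) ^ ((a : ℕ) + 1)) * (1 - X) = X * (1 - X ^ e) := by
  have h1 : (∑ a : Fin e, (X : ℤ⟦X⟧) ^ ((a : ℕ) + 1)) = X * ∑ i ∈ range e, X ^ i := by
    rw [Finset.mul_sum, Fin.sum_univ_eq_sum_range (fun i : ℕ => (X : ℤ⟦X⟧) ^ (i + 1)) e]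
    exact Finset.sum_congr rfl fun i _ => by rw [pow_succ']
  rw [h1, mul_assoc, geom_sum_mul_neg]

theorem gen_pow (k e : ℕ) : (∑ a : Fin e, (X : ℤ⟦X⟧) ^ ((a : ℕ) + 1)) ^ k =
    ∑ a : Fin k → Fin e, X ^ (∑ i, ((a i : ℕ) + 1)) := by
  have h1 := Finset.prod_univ_sum (fun _ : Fin k => (Finset.univ : Finset (Fin e)))
    (fun _ a => (X : ℤ⟦X⟧) ^ ((a : ℕ) + 1))
  rw [Finset.prod_const, Finset.card_univ, Fintype.card_fin, Fintype.piFinset_univ] at h1
  rw [h1]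
  exact Finset.sum_congr rfl fun a _ => Finset.prod_pow_eq_pow_sum _ _ _

/-- the numbers as coefficients -/
theorem hyp_coeff (N e j : ℕ) : (hyp N (e + 1) j : ℤ) =
    coeff ((j + 1) * (e + 1)) ((∑ a : Fin e, (X : ℤ⟦X⟧) ^ ((a : ℕ) + 1)) ^ (N + 2)) := by
  rw [gen_pow, map_sum, hyp_succ, Finset.card_filter]
  push_cast
  refine Finset.sum_congr rfl fun a _ => ?_
  rw [coeff_X_pow]
  congr 1
  rw [eq_iff_iff]
  constructor
  · intro h
    have : (((j + 1) * (e + 1) : ℕ) : ℤ) = ((∑ i, ((a i : ℕ) + 1) : ℕ) : ℤ) := by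
      push_cast
      exact h.symm
    exact_mod_cast this
  · intro h
    have h2 : (((j + 1) * (e + 1) : ℕ) : ℤ) = ((∑ i, ((a i : ℕ) + 1) : ℕ) : ℤ) := by rw [h]
    push_cast at h2
    exact h2.symm

/-- the closed formula -/
theorem hyp_binom {N e j : ℕ} (hj : j ≤ N) : (hyp N (e + 1) j : ℤ) =
    ∑ i ∈ range (j + 1), (-1) ^ i * ((N + 2).choose i : ℤ) * (((j + 1 - i) * e + j).choose (N + 1) : ℤ) := by
  rw [hyp_coeff]
  have h1 : (∑ a : Fin e, (X : ℤ⟦X⟧) ^ ((a : ℕ) + 1)) ^ (N + 2) =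
      X ^ (N + 2) * (1 - X ^ e) ^ (N + 2) * (invOneSubPow ℤ (N + 2)).val := by
    have h2 : (invOneSubPow ℤ (N + 2)).inv * (invOneSubPow ℤ (N + 2)).val = 1 := (invOneSubPow ℤ (N + 2)).inv_val
    rw [invOneSubPow_inv_eq_one_sub_pow] at h2
    calc (∑ a : Fin e, (X : ℤ⟦X⟧) ^ ((a : ℕ) + 1)) ^ (N + 2)
        = ((∑ a : Fin e, (X : ℤ⟦X⟧) ^ ((a : ℕ) + 1)) * (1 - X)) ^ (N + 2) * (invOneSubPow ℤ (N + 2)).val := by
          rw [mul_pow, mul_assoc, h2, mul_one]
      _ = _ := by rw [gen_mul, mul_pow]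
  have h3 : ((1 : ℤ⟦X⟧) - X ^ e) ^ (N + 2) = ∑ i ∈ range (N + 3), ((-1) ^ i * ((N + 2).choose i : ℤ)) • X ^ (e * i) := by
    rw [sub_eq_neg_add, add_pow]
    refine Finset.sum_congr rfl fun i _ => ?_
    rw [one_pow, mul_one, neg_pow, pow_mul, zsmul_eq_mul]
    push_cast
    ring
  rw [h1, h3, invOneSubPow_val_succ_eq_mk_add_choose, Finset.mul_sum, Finset.sum_mul, map_sum]
  have h4 : ∀ i, coeff ((j + 1) * (e + 1)) (X ^ (N + 2) * (((-1) ^ i * ((N + 2).choose i : ℤ)) • X ^ (e * i)) *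
      (PowerSeries.mk fun n => (((N + 1 + n).choose (N + 1) : ℕ) : ℤ))) = (-1) ^ i * ((N + 2).choose i : ℤ) *
      (if N + 2 + e * i ≤ (j + 1) * (e + 1) then
        (((N + 1 + ((j + 1) * (e + 1) - (N + 2 + e * i))).choose (N + 1) : ℕ) : ℤ) else 0) := by
    intro i
    rw [mul_smul_comm, smul_mul_assoc, ← pow_add, map_zsmul, coeff_X_pow_mul', coeff_mk, smul_eq_mul]
  simp only [h4]
  have h5 : range (j + 1) ⊆ range (N + 3) := Finset.range_subset_range.2 (by omega)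
  rw [← Finset.sum_subset h5]
  · refine Finset.sum_congr rfl fun i hi => ?_
    congr 1
    rw [Finset.mem_range] at hi
    obtain ⟨k, rfl⟩ : ∃ k, j = i + k := ⟨j - i, by omega⟩
    have e1 : i + k + 1 - i = k + 1 := by omega
    have e2 : (i + k + 1) * (e + 1) = e * i + ((k + 1) * e + (i + k) + 1) := by ring
    rw [e1, e2]
    by_cases h6 : N + 2 + e * i ≤ e * i + ((k + 1) * e + (i + k) + 1)
    · rw [if_pos h6]
      congr 2
      omega
    · rw [if_neg h6, Nat.choose_eq_zero_of_lt (by omega)]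
      rfl
  · intro i _ hi
    rw [Finset.mem_range, not_lt] at hi
    rw [if_neg, mul_zero]
    rw [not_le]
    have e1 : (j + 1) * e ≤ i * e := Nat.mul_le_mul_right e hi
    nlinarith

/-- the number of `j = 0` -/
theorem hyp_zero (N e : ℕ) : hyp N (e + 1) 0 = e.choose (N + 1) := by
  have h := hyp_binom (N := N) (e := e) (j := 0) (Nat.zero_le N)
  simp only [zero_add, range_one, sum_singleton, pow_zero, Nat.choose_zero_right, Nat.cast_one, one_mul, mul_one,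
    Nat.sub_zero, add_zero, Nat.cast_zero] at h
  exact_mod_cast h

end MH.HY
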