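import Pool.Agent.Helper14.HY.Hyp

/-!
Project HY (MP_b8862a_ag): the primitive Hodge numbers `hyp N d j` of smooth hypersurfaces (defined in `Helper14/HY/Hyp.lean`).
-/

namespace MH.HY

/-- the same number with the vectors shifted by one -/
theorem hyp_succ (N e : ℕ) (j : ℤ) : hyp N (e + 1) j =
    (Finset.univ.filter fun a : Fin (N + 2) → Fin e => ∑ i, ((a i : ℤ) + 1) = (j + 1) * (e + 1)).card := by
  unfold hyp
  symm
  refine Finset.card_bij (fun a _ => fun i => (a i).succ) ?_ ?_ ?_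
  · intro a ha
    rw [Finset.mem_filter] at ha ⊢
    refine ⟨Finset.mem_univ _, fun i => by simp, ?_⟩
    simp only [Fin.val_succ]
    push_cast
    exact ha.2
  · intro a _ b _ h
    funext i
    exact Fin.succ_injective _ (congrFun h i)
  · intro b hb
    rw [Finset.mem_filter] at hb
    obtain ⟨-, h1, h2⟩ := hb
    refine ⟨fun i => ⟨(b i : ℕ) - 1, by have := (b i).2; have := h1 i; omega⟩, ?_, ?_⟩
    · rw [Finset.mem_filter]
      refine ⟨Finset.mem_univ _, ?_⟩
      push_cast at h2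
      rw [← h2]
      refine Finset.sum_congr rfl fun i _ => ?_
      have := h1 i
      simp only
      omega
    · funext i
      have := h1 i
      apply Fin.ext
      simp only [Fin.val_succ]
      omega

theorem hyp_zero_deg (N : ℕ) (j : ℤ) : hyp N 0 j = 0 := by
  unfold hyp
  rw [Finset.card_eq_zero, Finset.filter_eq_empty_iff]
  intro a
  exact (a 0).elim0

/-- only `0 ≤ j ≤ N` give numbers different from zero -/
theorem hyp_supp {N d : ℕ} {j : ℤ} (h : hyp N d j ≠ 0) : 0 ≤ j ∧ j ≤ N := by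
  rcases Nat.eq_zero_or_pos d with rfl | hd
  · exact absurd (hyp_zero_deg N j) h
  obtain ⟨e, rfl⟩ : ∃ e, d = e + 1 := ⟨d - 1, by omega⟩
  rw [hyp_succ, ← Nat.pos_iff_ne_zero, Finset.card_pos] at h
  obtain ⟨a, ha⟩ := h
  rw [Finset.mem_filter] at ha
  have h1 := ha.2
  have h2 : (0 : ℤ) < ∑ i, ((a i : ℤ) + 1) := Finset.sum_pos (fun i _ => by positivity) Finset.univ_nonempty
  have h3 : ∑ i, ((a i : ℤ) + 1) < (N + 2) * (e + 1) := by
    calc ∑ i, ((a i : ℤ) + 1) < ∑ _i : Fin (N + 2), ((e : ℤ) + 1) := by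
          refine Finset.sum_lt_sum_of_nonempty Finset.univ_nonempty fun i _ => ?_
          have := (a i).2
          omega
      _ = (N + 2) * (e + 1) := by simp
  rw [h1] at h2 h3
  have he : (0 : ℤ) < e + 1 := by positivity
  have h4 := (mul_pos_iff_of_pos_right he).mp h2
  have h5 := lt_of_mul_lt_mul_right h3 he.le
  constructor <;> omega

/-- the numbers are symmetric -/
theorem hyp_symm (N d : ℕ) (j : ℤ) : hyp N d (N - j) = hyp N d j := by
  rcases Nat.eq_zero_or_pos d with rfl | hd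
  · rw [hyp_zero_deg, hyp_zero_deg]
  obtain ⟨e, rfl⟩ : ∃ e, d = e + 1 := ⟨d - 1, by omega⟩
  have key : ∀ a : Fin (N + 2) → Fin e, ∑ i, ((Fin.rev (a i) : ℤ) + 1) = (N + 2) * (e + 1) - ∑ i, ((a i : ℤ) + 1) := by
    intro a
    rw [eq_sub_iff_add_eq, ← Finset.sum_add_distrib]
    have : ∀ i ∈ (Finset.univ : Finset (Fin (N + 2))), ((Fin.rev (a i) : ℤ) + 1) + ((a i : ℤ) + 1) = (e : ℤ) + 1 := by
      intro i _
      have h1 := (a i).2
      have h2 := Fin.val_rev (a i)
      omega
    rw [Finset.sum_congr rfl this]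
    simp
  rw [hyp_succ, hyp_succ]
  refine Finset.card_bij (fun a _ => fun i => Fin.rev (a i)) ?_ ?_ ?_
  · intro a ha
    rw [Finset.mem_filter] at ha ⊢
    refine ⟨Finset.mem_univ _, ?_⟩
    rw [key, ha.2]
    ring
  · intro a _ b _ h
    funext i
    exact Fin.rev_injective (congrFun h i)
  · intro b hb
    rw [Finset.mem_filter] at hb
    refine ⟨fun i => Fin.rev (b i), ?_, ?_⟩
    · rw [Finset.mem_filter]
      refine ⟨Finset.mem_univ _, ?_⟩
      rw [key, hb.2]
      ring
    · funext i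
      exact Fin.rev_rev _

end MH.HY
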